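import Mathlib

set_option autoImplicit false

namespace Y470.Proj

instance fact29 : Fact (Nat.Prime 29) := ⟨by norm_num⟩
instance fact7 : Fact (Nat.Prime 7) := ⟨by norm_num⟩

/-- an element of order 7 raised to the power `k` -/
def e (k : ZMod 7) : ZMod 29 := 16 ^ k.val

lemma e_add : ∀ k l : ZMod 7, e (k + l) = e k * e l := by decide
lemma e_zero : e 0 = 1 := by decide
lemma e_inj : ∀ k l : ZMod 7, e k = e l → k = l := by decide

lemma e_eq_one {k : ZMod 7} : e k = 1 ↔ k = 0 := by
  constructor
  · intro h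
    exact e_inj _ _ (h.trans e_zero.symm)
  · rintro rfl
    exact e_zero

lemma e_neg_mul (k : ZMod 7) : e (-k) * e k = 1 := by
  rw [← e_add, neg_add_cancel, e_zero]

/-- the exponents of the two eigenvalues -/
def c (a : ZMod 7) (i : Fin 2) : ZMod 7 := if i = 0 then 1 else a

/-- the group `C_29^2 ⋊ C_7` with eigenvalues `r, r^a` -/
@[ext] structure Grp (a : ZMod 7) where
  v : Fin 2 → ZMod 29
  k : ZMod 7

namespace Grp

variable {a : ZMod 7}

instance : Mul (Grp a) := ⟨fun g h => ⟨fun i => g.v i + e (c a i * g.k) * h.v i, g.k + h.k⟩⟩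
instance : One (Grp a) := ⟨⟨0, 0⟩⟩
instance : Inv (Grp a) := ⟨fun g => ⟨fun i => -(e (c a i * (-g.k)) * g.v i), -g.k⟩⟩

@[simp] lemma mul_v (g h : Grp a) (i : Fin 2) : (g * h).v i = g.v i + e (c a i * g.k) * h.v i := rfl
@[simp] lemma mul_k (g h : Grp a) : (g * h).k = g.k + h.k := rfl
@[simp] lemma one_v (i : Fin 2) : (1 : Grp a).v i = 0 := rfl
@[simp] lemma one_k : (1 : Grp a).k = 0 := rfl
@[simp] lemma inv_v (g : Grp a) (i : Fin 2) : (g⁻¹).v i = -(e (c a i * (-g.k)) * g.v i) := rfl
@[simp] lemma inv_k (g : Grp a) : (g⁻¹).k = -g.k := rfl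

instance : Group (Grp a) := Group.ofLeftAxioms
  (by
    intro x y z
    ext i
    · simp only [mul_v, mul_k, mul_add, e_add]
      ring
    · simp only [mul_k]
      ring)
  (by
    intro x
    ext i
    · simp [e_zero]
    · simp)
  (by
    intro x
    ext i
    · simp only [mul_v, inv_v, inv_k, one_v]
      ring
    · simp)

end Grp

abbrev P (a : ZMod 7) : Type := Fin 2 → Grp a

abbrev I : Type := Fin 2 × Fin 2
abbrev W : Type := I → ZMod 29
abbrev Q : Type := Fin 2 → ZMod 7

def vec {a : ZMod 7} (g : P a) : W := fun p => (g p.1).v p.2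
def qq {a : ZMod 7} (g : P a) : Q := fun j => (g j).k
def mk (a : ZMod 7) (w : W) (q : Q) : P a := fun j => ⟨fun i => w (j, i), q j⟩

@[simp] lemma vec_mk (a : ZMod 7) (w : W) (q : Q) : vec (mk a w q) = w := by
  ext p; rfl
@[simp] lemma qq_mk (a : ZMod 7) (w : W) (q : Q) : qq (mk a w q) = q := by
  ext p; rfl
@[simp] lemma mk_vec_qq {a : ZMod 7} (g : P a) : mk a (vec g) (qq g) = g := by
  ext j i <;> rfl

lemma P_ext {a : ZMod 7} {g h : P a} (h1 : vec g = vec h) (h2 : qq g = qq h) : g = h := by
  rw [← mk_vec_qq g, ← mk_vec_qq h, h1, h2]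

/-- exponent of the eigenvalue -/
def ex (a : ZMod 7) (q : Q) (p : I) : ZMod 7 := c a p.2 * q p.1

lemma ex_add (a : ZMod 7) (q q' : Q) (p : I) : ex a (q + q') p = ex a q p + ex a q' p := by
  simp [ex, mul_add]
lemma ex_zero (a : ZMod 7) (p : I) : ex a 0 p = 0 := by
  simp [ex]
lemma ex_neg (a : ZMod 7) (q : Q) (p : I) : ex a (-q) p = - ex a q p := by
  simp [ex]

/-- diagonal action -/
def D (a : ZMod 7) (q : Q) (w : W) : W := fun p => e (ex a q p) * w p

lemma D_apply (a : ZMod 7) (q : Q) (w : W) (p : I) : D a q w p = e (ex a q p) * w p := rfl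

lemma D_add (a : ZMod 7) (q : Q) (w w' : W) : D a q (w + w') = D a q w + D a q w' := by
  ext p; simp [D, mul_add]
lemma D_sub (a : ZMod 7) (q : Q) (w w' : W) : D a q (w - w') = D a q w - D a q w' := by
  ext p; simp [D, mul_sub]
lemma D_zero (a : ZMod 7) (w : W) : D a 0 w = w := by
  ext p; simp [D, ex_zero, e_zero]
lemma D_D (a : ZMod 7) (q q' : Q) (w : W) : D a q (D a q' w) = D a (q + q') w := by
  ext p; simp only [D, ex_add, e_add]; ring

@[simp] lemma vec_mul {a : ZMod 7} (g h : P a) : vec (g * h) = vec g + D a (qq g) (vec h) := by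
  ext p; rfl
@[simp] lemma qq_mul {a : ZMod 7} (g h : P a) : qq (g * h) = qq g + qq h := by
  ext p; rfl
@[simp] lemma vec_one {a : ZMod 7} : vec (1 : P a) = 0 := by
  ext p; rfl
@[simp] lemma qq_one {a : ZMod 7} : qq (1 : P a) = 0 := by
  ext p; rfl
@[simp] lemma vec_inv {a : ZMod 7} (g : P a) : vec (g⁻¹) = - D a (-qq g) (vec g) := by
  ext p; rfl
@[simp] lemma qq_inv {a : ZMod 7} (g : P a) : qq (g⁻¹) = - qq g := by
  ext p; rfl

/-- Lagrange interpolation: a diagonal operator compatible with the eigenspaces preserves invariant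
subspaces. -/
lemma diag_mem (V1 : Submodule (ZMod 29) W) (u : W) (d : W)
    (hu : ∀ w ∈ V1, (fun p => u p * w p) ∈ V1)
    (hd : ∀ p p', u p = u p' → d p = d p') :
    ∀ w ∈ V1, (fun p => d p * w p) ∈ V1 := by
  classical
  intro w hw
  -- interpolating polynomial
  obtain ⟨R, hR⟩ : ∃ R : Polynomial (ZMod 29), ∀ p, R.eval (u p) = d p := by
    have hch : ∀ y : ZMod 29, ∃ z : ZMod 29, ∀ p, u p = y → d p = z := by
      intro y
      by_cases h : ∃ p, u p = y
      · obtain ⟨p0, hp0⟩ := h
        exact ⟨d p0, fun p hp => hd p p0 (hp.trans hp0.symm)⟩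
      · exact ⟨0, fun p hp => (h ⟨p, hp⟩).elim⟩
    choose z hz using hch
    refine ⟨Lagrange.interpolate Finset.univ (fun y : ZMod 29 => y) z, fun p => ?_⟩
    have := Lagrange.eval_interpolate_at_node (s := (Finset.univ : Finset (ZMod 29)))
      (v := fun y : ZMod 29 => y) z (fun x _ y _ h => h) (Finset.mem_univ (u p))
    rw [this]
    exact (hz (u p) p rfl).symm
  have key : ∀ R : Polynomial (ZMod 29), (fun p => R.eval (u p) * w p) ∈ V1 := by
    intro R
    induction R using Polynomial.induction_on' with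
    | add p q hp hq =>
      have : (fun x => (p + q).eval (u x) * w x) = (fun x => p.eval (u x) * w x)
          + (fun x => q.eval (u x) * w x) := by
        ext x; simp [add_mul]
      rw [this]
      exact V1.add_mem hp hq
    | monomial n c =>
      have h1 : ∀ n : ℕ, (fun x => u x ^ n * w x) ∈ V1 := by
        intro n
        induction n with
        | zero => simpa using hw
        | succ n ih =>
          have := hu _ ih
          have h2 : (fun x => u x ^ (n + 1) * w x) = (fun x => u x * (u x ^ n * w x)) := by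
            ext x; ring
          rw [h2]; exact this
      have h3 : (fun x => (Polynomial.monomial n c).eval (u x) * w x)
          = c • (fun x => u x ^ n * w x) := by
        ext x; simp [Polynomial.eval_monomial, mul_assoc]
      rw [h3]
      exact V1.smul_mem _ (h1 n)
  have h := key R
  have h2 : (fun p => R.eval (u p) * w p) = (fun p => d p * w p) := by
    ext p; rw [hR p]
  rwa [h2] at h

end Y470.Proj
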