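import Pool.Agent.Y470.Proj.Main

set_option autoImplicit false

namespace Y470.Proj

/-- line permutation -/
def tau (t : ZMod 7) : ZMod 7 :=
  if t = 2 then 3 else if t = 3 then 2 else if t = 4 then 5 else if t = 5 then 4 else t

def s2 (k l : ZMod 7) : ZMod 7 := if k = 0 then l else k * tau (l * k ^ 5)

lemma s2_s2 : ∀ k l, s2 k (s2 k l) = l := by decide
lemma s2_smul : ∀ m k l, s2 (m * k) (m * l) = m * s2 k l := by decide
lemma s2_zero : ∀ k l, s2 k l = 0 ↔ l = 0 := by decide

def exf (a k l : ZMod 7) (i j : Fin 2) : ZMod 7 := c a i * (if j = 0 then k else l)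

lemma exf_eq : ∀ k l, ∀ i j i' j' : Fin 2, exf 2 k l i j = exf 2 k l i' j' ↔
    exf 3 k (s2 k l) i j = exf 3 k (s2 k l) i' j' := by decide
lemma exf_zero : ∀ k l, ∀ i j : Fin 2, exf 2 k l i j = 0 ↔ exf 3 k (s2 k l) i j = 0 := by decide

lemma ex_eq (a : ZMod 7) (q : Q) (p : I) : ex a q p = exf a (q 0) (q 1) p.2 p.1 := by
  rcases p with ⟨j, i⟩
  fin_cases j <;> simp [ex, exf]

def sg : Q ≃ Q where
  toFun q := ![q 0, s2 (q 0) (q 1)]
  invFun q := ![q 0, s2 (q 0) (q 1)]
  left_inv q := by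
    ext j
    fin_cases j
    · simp
    · simp [s2_s2]
  right_inv q := by
    ext j
    fin_cases j
    · simp
    · simp [s2_s2]

@[simp] lemma sg_zero (q : Q) : sg q 0 = q 0 := rfl
@[simp] lemma sg_one (q : Q) : sg q 1 = s2 (q 0) (q 1) := rfl
lemma sg_symm : sg.symm = sg := rfl
lemma sg_sg (q : Q) : sg (sg q) = q := sg.left_inv q

lemma Q_ext {q q' : Q} (h0 : q 0 = q' 0) (h1 : q 1 = q' 1) : q = q' := by
  ext j; fin_cases j
  · exact h0
  · exact h1

lemma sg_smul (m : ZMod 7) (q : Q) : sg (m • q) = m • sg q := by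
  apply Q_ext
  · simp
  · simp [s2_smul]

lemma sg_sub (A : AddSubgroup Q) (x : Q) (hx : x ∈ A) (y : Q) (hy : y ∈ A) :
    ∃ z ∈ A, sg z = sg x + sg y := by
  let B : Submodule (ZMod 7) Q := AddSubgroup.toZModSubmodule 7 A
  have hB : ∀ z, z ∈ B ↔ z ∈ A := fun z => Iff.rfl
  have key : sg (sg x + sg y) ∈ B := by
    set z := sg (sg x + sg y) with hz
    by_cases hd : x 0 * y 1 - x 1 * y 0 = 0
    · -- dependent
      by_cases h0 : x = 0
      · have : z = y := by
          rw [hz, h0]
          have : sg (0 : Q) = 0 := by simpa using sg_smul 0 0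
          rw [this, zero_add, sg_sg]
        rw [this]; exact hy
      · have hm : ∃ m : ZMod 7, y = m • x := by
          by_cases hx0 : x 0 = 0
          · have hx1 : x 1 ≠ 0 := fun h1 => h0 (Q_ext hx0 h1)
            refine ⟨y 1 / x 1, Q_ext ?_ ?_⟩
            · simp only [Pi.smul_apply, smul_eq_mul, hx0, mul_zero]
              rw [hx0, zero_mul, zero_sub, neg_eq_zero] at hd
              exact (mul_eq_zero.1 hd).resolve_left hx1
            · simp only [Pi.smul_apply, smul_eq_mul]
              field_simp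
          · refine ⟨y 0 / x 0, Q_ext ?_ ?_⟩
            · simp only [Pi.smul_apply, smul_eq_mul]
              field_simp
            · simp only [Pi.smul_apply, smul_eq_mul]
              field_simp
              linear_combination hd
        obtain ⟨m, rfl⟩ := hm
        have : z = (1 + m) • x := by
          rw [hz, sg_smul]
          have : sg x + m • sg x = (1 + m) • sg x := by
            rw [add_smul, one_smul]
          rw [this, sg_smul, sg_sg]
        rw [this]
        exact B.smul_mem _ hx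
    · have : z = ((z 0 * y 1 - z 1 * y 0) / (x 0 * y 1 - x 1 * y 0)) • x
          + ((x 0 * z 1 - x 1 * z 0) / (x 0 * y 1 - x 1 * y 0)) • y := by
        apply Q_ext
        · simp only [Pi.add_apply, Pi.smul_apply, smul_eq_mul]
          rw [div_mul_eq_mul_div, div_mul_eq_mul_div, ← add_div, eq_div_iff hd]
          ring
        · simp only [Pi.add_apply, Pi.smul_apply, smul_eq_mul]
          rw [div_mul_eq_mul_div, div_mul_eq_mul_div, ← add_div, eq_div_iff hd]
          ring
      rw [this]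
      exact B.add_mem (B.smul_mem _ hx) (B.smul_mem _ hy)
  exact ⟨_, key, sg_sg _⟩

lemma sg_neg (x : Q) : sg (-x) = - sg x := by
  have := sg_smul (-1) x
  simpa using this

lemma sg_z : sg 0 = 0 := by simpa using sg_smul 0 0

lemma compat23 : Compat 2 3 sg where
  zero := sg_z
  sub := sg_sub
  neg := sg_neg
  eqv q p p' h := by
    rw [ex_eq, ex_eq] at h ⊢
    exact (exf_eq _ _ _ _ _ _).1 h
  eqv' q p p' h := by
    rw [ex_eq, ex_eq] at h ⊢
    exact (exf_eq _ _ _ _ _ _).2 h
  ez q p := by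
    rw [ex_eq, ex_eq]
    exact exf_zero _ _ _ _

lemma compat32 : Compat 3 2 sg.symm where
  zero := sg_z
  sub := sg_sub
  neg := sg_neg
  eqv q p p' h := by
    rw [sg_symm]
    apply compat23.eqv'
    rwa [sg_sg]
  eqv' q p p' h := by
    rw [sg_symm] at h
    have := compat23.eqv _ _ _ h
    rwa [sg_sg] at this
  ez q p := by
    rw [sg_symm, compat23.ez, sg_sg]

noncomputable def phi : Subgroup (P 2) ≃o Subgroup (P 3) := Φ 2 3 sg compat23 compat32

lemma f_apply_eq_one (g : P 2) (j : Fin 2) : f 2 3 sg g j = 1 ↔ g j = 1 := by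
  have hv : ∀ i, (f 2 3 sg g j).v i = T 2 3 sg (qq g) (j, i) * (g j).v i := fun i => rfl
  have hk : (f 2 3 sg g j).k = sg (qq g) j := rfl
  have hk2 : sg (qq g) j = 0 ↔ (g j).k = 0 := by
    fin_cases j
    · rfl
    · exact s2_zero _ _
  constructor
  · intro h
    ext i
    · have h1 := hv i
      rw [h] at h1
      simp only [Grp.one_v] at h1 ⊢
      exact (mul_eq_zero.1 h1.symm).resolve_left (T_ne_zero compat23 _ _)
    · rw [h] at hk
      simp only [Grp.one_k] at hk ⊢
      exact hk2.1 hk.symm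
  · intro h
    ext i
    · rw [hv i, h]; simp
    · rw [hk]
      simp only [Grp.one_k]
      exact hk2.2 (by rw [h]; rfl)

lemma mem_range_single {a : ZMod 7} (i : Fin 2) (g : P a) :
    g ∈ (MonoidHom.mulSingle (fun _ : Fin 2 => Grp a) i).range ↔ ∀ j, j ≠ i → g j = 1 := by
  rw [MonoidHom.mem_range]
  constructor
  · rintro ⟨x, rfl⟩ j hj
    simp [MonoidHom.mulSingle_apply, Pi.mulSingle_eq_of_ne hj]
  · intro h
    refine ⟨g i, ?_⟩
    funext j
    by_cases hj : j = i
    · subst hj; simp [MonoidHom.mulSingle_apply]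
    · simp [MonoidHom.mulSingle_apply, Pi.mulSingle_eq_of_ne hj, h j hj]

lemma phi_range (i : Fin 2) :
    phi (MonoidHom.mulSingle (fun _ : Fin 2 => Grp 2) i).range
      = (MonoidHom.mulSingle (fun _ : Fin 2 => Grp 3) i).range := by
  ext h
  have h3 := f_f compat32 h
  simp only [Equiv.symm_symm] at h3
  rw [← h3]
  have h4 := mem_Φ (h := compat23) (h' := compat32)
    (MonoidHom.mulSingle (fun _ : Fin 2 => Grp 2) i).range (f 3 2 sg.symm h)
  change f 2 3 sg (f 3 2 sg.symm h) ∈ Φ 2 3 sg compat23 compat32 _ ↔ _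
  rw [h4, mem_range_single, mem_range_single]
  exact forall₂_congr fun j _ => (f_apply_eq_one _ j).symm

lemma pow_v {a : ZMod 7} (u : Fin 2 → ZMod 29) (n : ℕ) :
    (⟨u, 0⟩ : Grp a) ^ n = ⟨fun i => n * u i, 0⟩ := by
  induction n with
  | zero => ext i <;> simp
  | succ n ih =>
    rw [pow_succ, ih]
    ext i
    · simp [e_zero]; ring
    · simp

lemma pow_k {a : ZMod 7} (g : Grp a) (n : ℕ) : (g ^ n).k = n * g.k := by
  induction n with
  | zero => simp
  | succ n ih => rw [pow_succ, Grp.mul_k, ih]; push_cast; ring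

def Special (G : Type) [Group G] : Prop :=
  ∃ g v w : G, ∃ m : ℕ, v ^ 29 = 1 ∧ w ^ 29 = 1 ∧ w ≠ 1 ∧ g * v * g⁻¹ = v ^ m ∧
    g * w * g⁻¹ = w ^ (m ^ 2) ∧ v ^ m ≠ v

lemma Special.map {G H : Type} [Group G] [Group H] (φ : G ≃* H) (h : Special G) : Special H := by
  obtain ⟨g, v, w, m, h1, h2, h3, h4, h5, h6⟩ := h
  refine ⟨φ g, φ v, φ w, m, ?_, ?_, ?_, ?_, ?_, ?_⟩
  · rw [← map_pow, h1, map_one]
  · rw [← map_pow, h2, map_one]
  · intro h; exact h3 (φ.injective (by rw [h, map_one]))
  · rw [← map_mul, ← map_inv, ← map_mul, h4, map_pow]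
  · rw [← map_mul, ← map_inv, ← map_mul, h5, map_pow]
  · intro h; rw [← map_pow] at h; exact h6 (φ.injective h)

lemma special2 : Special (Grp 2) := by
  refine ⟨⟨0, 1⟩, ⟨![1, 0], 0⟩, ⟨![0, 1], 0⟩, 16, ?_, ?_, ?_, ?_, ?_, ?_⟩
  · rw [pow_v]
    ext i
    · have : ((29 : ℕ) : ZMod 29) = 0 := by decide
      simp only [this, zero_mul]; rfl
    · rfl
  · rw [pow_v]
    ext i
    · have : ((29 : ℕ) : ZMod 29) = 0 := by decide
      simp only [this, zero_mul]; rfl
    · rfl
  · intro h
    have := congrArg (fun g : Grp 2 => g.v 1) h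
    revert this
    decide
  · rw [pow_v]
    ext i
    · fin_cases i <;> decide
    · decide
  · rw [pow_v]
    ext i
    · fin_cases i <;> decide
    · decide
  · rw [pow_v]
    intro h
    have := congrArg (fun g : Grp 2 => g.v 0) h
    revert this
    decide

lemma c3_dec : ∀ k : ZMod 7, ∀ i j : Fin 2, c 3 i * k + c 3 i * k = c 3 j * k → k = 0 := by decide

lemma conj_v (g v : Grp 3) (hv : v.k = 0) (i : Fin 2) :
    (g * v * g⁻¹).v i = e (c 3 i * g.k) * v.v i := by
  simp only [Grp.mul_v, Grp.mul_k, Grp.inv_v, hv, add_zero]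
  have : e (c 3 i * g.k) * e (c 3 i * -g.k) = 1 := by
    rw [← e_add]
    have : c 3 i * g.k + c 3 i * -g.k = 0 := by ring
    rw [this, e_zero]
  linear_combination (-g.v i) * this

lemma not_special3 : ¬ Special (Grp 3) := by
  rintro ⟨g, v, w, m, h1, h2, h3, h4, h5, h6⟩
  have hk : ∀ u : Grp 3, u ^ 29 = 1 → u.k = 0 := by
    intro u hu
    have := congrArg Grp.k hu
    rw [pow_k] at this
    have h29 : ((29 : ℕ) : ZMod 7) = 1 := by decide
    rw [h29, one_mul] at this
    exact this
  have hvk := hk v h1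
  have hwk := hk w h2
  have hveq : v = ⟨v.v, 0⟩ := by ext i <;> simp [hvk]
  have hweq : w = ⟨w.v, 0⟩ := by ext i <;> simp [hwk]
  have hvpow : ∀ n : ℕ, ∀ i, (v ^ n).v i = n * v.v i := by
    intro n i
    rw [hveq, pow_v]
  have hwpow : ∀ n : ℕ, ∀ i, (w ^ n).v i = n * w.v i := by
    intro n i
    rw [hweq, pow_v]
  have hv1 : v ≠ 1 := by
    rintro rfl
    exact h6 (by simp)
  have hex : ∀ u : Grp 3, u.k = 0 → u ≠ 1 → ∃ i, u.v i ≠ 0 := by
    intro u huk hu
    by_contra hcon
    push Not at hcon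
    exact hu (by ext i <;> simp [huk, hcon])
  obtain ⟨i, hi⟩ := hex v hvk hv1
  obtain ⟨j, hj⟩ := hex w hwk h3
  have e1 : e (c 3 i * g.k) = (m : ZMod 29) := by
    have := congrArg (fun x : Grp 3 => x.v i) h4
    simp only [conj_v g v hvk, hvpow] at this
    exact mul_right_cancel₀ hi this
  have e2 : e (c 3 j * g.k) = (m : ZMod 29) ^ 2 := by
    have := congrArg (fun x : Grp 3 => x.v j) h5
    simp only [conj_v g w hwk, hwpow] at this
    have := mul_right_cancel₀ hj this
    rw [this]; push_cast; ring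
  have e3 : e (c 3 i * g.k + c 3 i * g.k) = e (c 3 j * g.k) := by
    rw [e_add, e1, e2, sq]
  have e4 := c3_dec _ _ _ (e_inj _ _ e3)
  have e5 : (m : ZMod 29) = 1 := by
    rw [← e1, e4, mul_zero, e_zero]
  apply h6
  ext l
  · rw [hvpow, e5, one_mul]
  · rw [pow_k, hvk, mul_zero]

theorem final :
    ¬ (∀ (G : Type) [Group G] (n : ℕ) (H : Type) [Group H]
      (φ : Subgroup (Fin (n + 2) → G) ≃o Subgroup H),
      (∀ i : Fin (n + 2),
          (φ (MonoidHom.mulSingle (fun _ : Fin (n + 2) => G) i).range).Normal) →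
      (⨆ i : Fin (n + 2), φ (MonoidHom.mulSingle (fun _ : Fin (n + 2) => G) i).range) = ⊤ →
      iSupIndep (fun i : Fin (n + 2) =>
          φ (MonoidHom.mulSingle (fun _ : Fin (n + 2) => G) i).range) →
      Nonempty (↥(φ (MonoidHom.mulSingle (fun _ : Fin (n + 2) => G) 0).range) ≃* G)) := by
  intro hall
  have h := hall (Grp 2) 0 (P 3) phi
  have hn : ∀ i : Fin 2, (phi (MonoidHom.mulSingle (fun _ : Fin 2 => Grp 2) i).range).Normal := by
    intro i
    rw [phi_range]
    refine ⟨fun g hg x => ?_⟩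
    rw [mem_range_single] at hg ⊢
    intro j hj
    simp [hg j hj]
  have hs : (⨆ i : Fin 2, phi (MonoidHom.mulSingle (fun _ : Fin 2 => Grp 2) i).range) = ⊤ := by
    rw [eq_top_iff]
    intro g _
    have h0 : ∀ i, Pi.mulSingle i (g i) ∈
        (⨆ i : Fin 2, phi (MonoidHom.mulSingle (fun _ : Fin 2 => Grp 2) i).range) := by
      intro i
      refine Subgroup.mem_iSup_of_mem i ?_
      rw [phi_range, mem_range_single]
      intro j hj
      exact Pi.mulSingle_eq_of_ne hj _
    have h1 : g = Pi.mulSingle 0 (g 0) * Pi.mulSingle 1 (g 1) := by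
      funext j
      fin_cases j
      · simp
      · simp
    rw [h1]
    exact Subgroup.mul_mem _ (h0 0) (h0 1)
  have hi : iSupIndep (fun i : Fin 2 => phi (MonoidHom.mulSingle (fun _ : Fin 2 => Grp 2) i).range) := by
    rw [iSupIndep_def]
    intro i
    rw [Subgroup.disjoint_def]
    intro g hg hg2
    rw [phi_range, mem_range_single] at hg
    have hle : (⨆ j, ⨆ (_ : j ≠ i), phi (MonoidHom.mulSingle (fun _ : Fin 2 => Grp 2) j).range)
        ≤ (Pi.evalMonoidHom (fun _ : Fin 2 => Grp 3) i).ker := by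
      refine iSup_le fun j => iSup_le fun hj => ?_
      rw [phi_range]
      intro x hx
      rw [mem_range_single] at hx
      rw [MonoidHom.mem_ker]
      exact hx i (Ne.symm hj)
    have h3 := hle hg2
    rw [MonoidHom.mem_ker] at h3
    funext j
    by_cases hj : j = i
    · subst hj; exact h3
    · exact hg j hj
  obtain ⟨ψ⟩ := h hn hs hi
  have h4 : Nonempty (Grp 3 ≃* Grp 2) := by
    have h5 : (phi (MonoidHom.mulSingle (fun _ : Fin 2 => Grp 2) 0).range)
        = (MonoidHom.mulSingle (fun _ : Fin 2 => Grp 3) 0).range := phi_range 0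
    have h6 : Grp 3 ≃* (MonoidHom.mulSingle (fun _ : Fin 2 => Grp 3) 0).range :=
      MonoidHom.ofInjective (Pi.mulSingle_injective (M := fun _ : Fin 2 => Grp 3) 0)
    exact ⟨h6.trans ((MulEquiv.subgroupCongr h5.symm).trans ψ)⟩
  obtain ⟨θ⟩ := h4
  exact not_special3 (special2.map θ.symm)

end Y470.Proj
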