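import Pool.Agent.Y470.Proj.Defs

set_option autoImplicit false

namespace Y470.Proj

/-- vector part of a subgroup -/
def V1 {a : ZMod 7} (S : Subgroup (P a)) : Submodule (ZMod 29) W :=
  AddSubgroup.toZModSubmodule 29
    { carrier := {w | mk a w 0 ∈ S}
      zero_mem' := by
        have : mk a 0 0 = 1 := P_ext (by simp) (by simp)
        simp only [Set.mem_ofPred_eq, this]
        exact S.one_mem
      add_mem' := by
        intro w w' hw hw'
        have h := S.mul_mem hw hw'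
        have : mk a w 0 * mk a w' 0 = mk a (w + w') 0 := P_ext (by simp [D_zero]) (by simp)
        rw [this] at h
        exact h
      neg_mem' := by
        intro w hw
        have h := S.inv_mem hw
        have : (mk a w 0)⁻¹ = mk a (-w) 0 := P_ext (by simp [D_zero]) (by simp)
        rw [this] at h
        exact h }

lemma mem_V1 {a : ZMod 7} {S : Subgroup (P a)} {w : W} : w ∈ V1 S ↔ mk a w 0 ∈ S := Iff.rfl

/-- projection to the complement -/
def Q1 {a : ZMod 7} (S : Subgroup (P a)) : AddSubgroup Q where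
  carrier := {q | ∃ g ∈ S, qq g = q}
  zero_mem' := ⟨1, S.one_mem, by simp⟩
  add_mem' := by
    rintro q q' ⟨g, hg, rfl⟩ ⟨g', hg', rfl⟩
    exact ⟨g * g', S.mul_mem hg hg', by simp⟩
  neg_mem' := by
    rintro q ⟨g, hg, rfl⟩
    exact ⟨g⁻¹, S.inv_mem hg, by simp⟩

lemma mem_Q1 {a : ZMod 7} {S : Subgroup (P a)} {q : Q} : q ∈ Q1 S ↔ ∃ g ∈ S, qq g = q := Iff.rfl

lemma sub_mem_V1 {a : ZMod 7} {S : Subgroup (P a)} {g h : P a} (hg : g ∈ S) (hh : h ∈ S)
    (hq : qq g = qq h) : vec g - vec h ∈ V1 S := by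
  rw [mem_V1]
  have : mk a (vec g - vec h) 0 = g * h⁻¹ := by
    apply P_ext
    · simp only [vec_mk, vec_mul, vec_inv, hq]
      have : D a (qq h) (-D a (-qq h) (vec h)) = - vec h := by
        have h0 : -D a (-qq h) (vec h) = D a (-qq h) (-vec h) := by
          ext p; simp [D]
        rw [h0, D_D, add_neg_cancel, D_zero]
      rw [this, sub_eq_add_neg]
    · simp [hq]
  rw [this]
  exact S.mul_mem hg (S.inv_mem hh)

lemma D_mem {a : ZMod 7} {S : Subgroup (P a)} {q : Q} (hq : q ∈ Q1 S) {w : W} (hw : w ∈ V1 S) :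
    D a q w ∈ V1 S := by
  obtain ⟨g, hg, rfl⟩ := hq
  rw [mem_V1] at hw ⊢
  have h := S.mul_mem (S.mul_mem hg hw) (S.inv_mem hg)
  have : g * mk a w 0 * g⁻¹ = mk a (D a (qq g) w) 0 := by
    apply P_ext
    · simp only [vec_mul, qq_mul, vec_inv, vec_mk, qq_mk, add_zero]
      have : D a (qq g) (-D a (-qq g) (vec g)) = - vec g := by
        have h0 : -D a (-qq g) (vec g) = D a (-qq g) (-vec g) := by
          ext p; simp [D]
        rw [h0, D_D, add_neg_cancel, D_zero]
      rw [this]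
      abel
    · simp
  rwa [this] at h

lemma card_ne_zero (A : AddSubgroup Q) : ((Nat.card A : ℕ) : ZMod 29) ≠ 0 := by
  have h1 : Nat.card A ∣ Nat.card Q := AddSubgroup.card_addSubgroup_dvd_card A
  have h2 : Nat.card Q = 7 ^ 2 := by
    simp [Q]
  rw [h2, Nat.dvd_prime_pow (by norm_num)] at h1
  obtain ⟨m, hm, h⟩ := h1
  rw [h]
  interval_cases m <;> decide

/-- structure of subgroups: conjugate to a split one. -/
lemma struct {a : ZMod 7} (S : Subgroup (P a)) : ∃ x : W, ∀ g : P a,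
    g ∈ S ↔ qq g ∈ Q1 S ∧ vec g - (x - D a (qq g) x) ∈ V1 S := by
  classical
  have hch : ∀ k : Q1 S, ∃ g : P a, g ∈ S ∧ qq g = k := fun k => by
    obtain ⟨g, hg, h⟩ := k.2
    exact ⟨g, hg, h⟩
  choose s hsS hsq using hch
  have hfin : Fintype (Q1 S) := Fintype.ofFinite _
  set n : ZMod 29 := ((Nat.card (Q1 S) : ℕ) : ZMod 29) with hn
  have hn0 : n ≠ 0 := card_ne_zero _
  set X : W := ∑ l : Q1 S, vec (s l) with hX
  have key : ∀ k : Q1 S, n • vec (s k) + D a (k : Q) X - X ∈ V1 S := by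
    intro k
    have h1 : ∀ l : Q1 S, vec (s k) + D a (k : Q) (vec (s l)) - vec (s (k + l)) ∈ V1 S := by
      intro l
      have := sub_mem_V1 (S.mul_mem (hsS k) (hsS l)) (hsS (k + l)) (by simp [hsq])
      simpa [hsq] using this
    have h2 := (V1 S).sum_mem (t := Finset.univ) (fun l _ => h1 l)
    rw [Finset.sum_sub_distrib, Finset.sum_add_distrib] at h2
    have h3 : ∑ l : Q1 S, vec (s (k + l)) = X := by
      rw [hX]
      exact Equiv.sum_comp (Equiv.addLeft k) (fun l => vec (s l))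
    have h4 : ∑ l : Q1 S, D a (k : Q) (vec (s l)) = D a (k : Q) X := by
      rw [hX]
      ext p
      simp only [D_apply, Finset.sum_apply, Finset.mul_sum]
    have h5 : ∑ _l : Q1 S, vec (s k) = n • vec (s k) := by
      rw [Finset.sum_const, Finset.card_univ, ← Nat.card_eq_fintype_card, hn, Nat.cast_smul_eq_nsmul]
    rw [h3, h4, h5] at h2
    exact h2
  have key2 : ∀ k : Q1 S, vec (s k) - (n⁻¹ • X - D a (k : Q) (n⁻¹ • X)) ∈ V1 S := by
    intro k
    have h := (V1 S).smul_mem n⁻¹ (key k)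
    have h2 : n⁻¹ • (n • vec (s k) + D a (k : Q) X - X)
        = vec (s k) - (n⁻¹ • X - D a (k : Q) (n⁻¹ • X)) := by
      ext p
      simp only [Pi.smul_apply, Pi.sub_apply, Pi.add_apply, D_apply, smul_eq_mul]
      field_simp
      ring
    rwa [h2] at h
  refine ⟨n⁻¹ • X, fun g => ⟨fun hg => ?_, fun ⟨hq, hv⟩ => ?_⟩⟩
  · have hq : qq g ∈ Q1 S := ⟨g, hg, rfl⟩
    refine ⟨hq, ?_⟩
    have h1 := sub_mem_V1 hg (hsS ⟨qq g, hq⟩) (by rw [hsq])
    have h2 := (V1 S).add_mem h1 (key2 ⟨qq g, hq⟩)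
    have h3 : vec g - vec (s ⟨qq g, hq⟩) + (vec (s ⟨qq g, hq⟩) - (n⁻¹ • X - D a (qq g) (n⁻¹ • X)))
      = vec g - (n⁻¹ • X - D a (qq g) (n⁻¹ • X)) := by abel
    simp only at h2
    rwa [h3] at h2
  · have h2 := (V1 S).sub_mem hv (key2 ⟨qq g, hq⟩)
    have h3 : vec g - (n⁻¹ • X - D a (qq g) (n⁻¹ • X)) - (vec (s ⟨qq g, hq⟩)
        - (n⁻¹ • X - D a (qq g) (n⁻¹ • X))) = vec g - vec (s ⟨qq g, hq⟩) := by abel
    simp only at h2
    rw [h3, mem_V1] at h2
    have h4 := S.mul_mem h2 (hsS ⟨qq g, hq⟩)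
    have h5 : mk a (vec g - vec (s ⟨qq g, hq⟩)) 0 * s ⟨qq g, hq⟩ = g := by
      apply P_ext
      · simp [D_zero]
      · simp [hsq]
    rwa [h5] at h4

/-- compatibility data between the two exponents -/
structure Compat (a b : ZMod 7) (σ : Q ≃ Q) : Prop where
  zero : σ 0 = 0
  sub : ∀ A : AddSubgroup Q, ∀ x ∈ A, ∀ y ∈ A, ∃ z ∈ A, σ z = σ x + σ y
  neg : ∀ x, σ (-x) = - σ x
  eqv : ∀ q p p', ex a q p = ex a q p' → ex b (σ q) p = ex b (σ q) p'
  eqv' : ∀ q p p', ex b (σ q) p = ex b (σ q) p' → ex a q p = ex a q p'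
  ez : ∀ q p, ex a q p = 0 ↔ ex b (σ q) p = 0

/-- scaling factors -/
def T (a b : ZMod 7) (σ : Q ≃ Q) (q : Q) : I → ZMod 29 :=
  fun p => if ex a q p = 0 then 1 else (1 - e (ex b (σ q) p)) / (1 - e (ex a q p))

lemma T_mul_T {a b : ZMod 7} {σ : Q ≃ Q} (h : Compat a b σ) (q : Q) (p : I) :
    T b a σ.symm (σ q) p * T a b σ q p = 1 := by
  unfold T
  simp only [Equiv.symm_apply_apply]
  by_cases h0 : ex a q p = 0
  · rw [if_pos h0, if_pos ((h.ez q p).1 h0), mul_one]
  · rw [if_neg h0, if_neg (fun h1 => h0 ((h.ez q p).2 h1))]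
    have h1 : (1 : ZMod 29) - e (ex a q p) ≠ 0 := by
      intro h2
      exact h0 (e_eq_one.1 (sub_eq_zero.1 h2).symm)
    have h3 : (1 : ZMod 29) - e (ex b (σ q) p) ≠ 0 := by
      intro h2
      exact h0 ((h.ez q p).2 (e_eq_one.1 (sub_eq_zero.1 h2).symm))
    field_simp

lemma T_ne_zero {a b : ZMod 7} {σ : Q ≃ Q} (h : Compat a b σ) (q : Q) (p : I) :
    T a b σ q p ≠ 0 := by
  intro h0
  have := T_mul_T h q p
  rw [h0, mul_zero] at this
  exact zero_ne_one this

/-- the element map -/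
def f (a b : ZMod 7) (σ : Q ≃ Q) (g : P a) : P b :=
  mk b (fun p => T a b σ (qq g) p * vec g p) (σ (qq g))

@[simp] lemma vec_f (a b : ZMod 7) (σ : Q ≃ Q) (g : P a) :
  vec (f a b σ g) = fun p => T a b σ (qq g) p * vec g p := by simp [f]
@[simp] lemma qq_f (a b : ZMod 7) (σ : Q ≃ Q) (g : P a) : qq (f a b σ g) = σ (qq g) := by simp [f]

lemma f_f {a b : ZMod 7} {σ : Q ≃ Q} (h : Compat a b σ) (g : P a) :
    f b a σ.symm (f a b σ g) = g := by
  apply P_ext
  · ext p
    simp only [vec_f, qq_f]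
    rw [← mul_assoc, T_mul_T h, one_mul]
  · simp

lemma image_subgroup {a b : ZMod 7} {σ : Q ≃ Q} (h : Compat a b σ) (S : Subgroup (P a)) :
    ∃ S' : Subgroup (P b), ∀ g, f a b σ g ∈ S' ↔ g ∈ S := by
  classical
  obtain ⟨x, hx⟩ := struct S
  have hDb : ∀ k ∈ Q1 S, ∀ w ∈ V1 S, D b (σ k) w ∈ V1 S := by
    intro k hk
    apply diag_mem (V1 S) (fun p => e (ex a k p)) (fun p => e (ex b (σ k) p))
    · intro w hw
      exact D_mem hk hw
    · intro p p' hp
      rw [h.eqv k p p' (e_inj _ _ hp)]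
  have hT : ∀ k ∈ Q1 S, ∀ w ∈ V1 S, (fun p => T a b σ k p * w p) ∈ V1 S := by
    intro k hk
    apply diag_mem (V1 S) (fun p => e (ex a k p)) (fun p => T a b σ k p)
    · intro w hw
      exact D_mem hk hw
    · intro p p' hp
      have h1 := e_inj _ _ hp
      simp only [T, h1, h.eqv k p p' h1]
  have hT' : ∀ k ∈ Q1 S, ∀ w ∈ V1 S, (fun p => (T a b σ k p)⁻¹ * w p) ∈ V1 S := by
    intro k hk
    apply diag_mem (V1 S) (fun p => e (ex a k p)) (fun p => (T a b σ k p)⁻¹)
    · intro w hw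
      exact D_mem hk hw
    · intro p p' hp
      have h1 := e_inj _ _ hp
      simp only [T, h1, h.eqv k p p' h1]
  have hT2 : ∀ k ∈ Q1 S, ∀ w, ((fun p => T a b σ k p * w p) ∈ V1 S ↔ w ∈ V1 S) := by
    intro k hk w
    constructor
    · intro hw
      have := hT' k hk _ hw
      have h2 : (fun p => (T a b σ k p)⁻¹ * (T a b σ k p * w p)) = w := by
        ext p
        rw [← mul_assoc, inv_mul_cancel₀ (T_ne_zero h k p), one_mul]
      rwa [h2] at this
    · exact hT k hk w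
  refine ⟨{ carrier := {g | ∃ k ∈ Q1 S, σ k = qq g ∧ vec g - (x - D b (qq g) x) ∈ V1 S}
            one_mem' := ⟨0, (Q1 S).zero_mem, by simp [h.zero], by simp [D_zero]⟩
            mul_mem' := ?_
            inv_mem' := ?_ }, ?_⟩
  · rintro g g' ⟨k, hk, hkg, hv⟩ ⟨k', hk', hkg', hv'⟩
    obtain ⟨z, hz, hzz⟩ := h.sub _ _ hk _ hk'
    refine ⟨z, hz, by rw [hzz, hkg, hkg', qq_mul], ?_⟩
    have h1 := (V1 S).add_mem hv (hDb k hk _ hv')
    have h2 : vec g - (x - D b (qq g) x) + D b (σ k) (vec g' - (x - D b (qq g') x))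
        = vec (g * g') - (x - D b (qq (g * g')) x) := by
      rw [hkg, D_sub, D_sub, D_D, vec_mul, qq_mul]
      abel
    rwa [h2] at h1
  · rintro g ⟨k, hk, hkg, hv⟩
    refine ⟨-k, (Q1 S).neg_mem hk, by rw [h.neg, hkg, qq_inv], ?_⟩
    have h1 := (V1 S).neg_mem (hDb (-k) ((Q1 S).neg_mem hk) _ hv)
    have h2 : -(D b (σ (-k)) (vec g - (x - D b (qq g) x)))
        = vec (g⁻¹) - (x - D b (qq (g⁻¹)) x) := by
      rw [h.neg, hkg, D_sub, D_sub, D_D, vec_inv, qq_inv, neg_add_cancel, D_zero]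
      abel
    rwa [h2] at h1
  · intro g
    rw [hx g]
    change (∃ k ∈ Q1 S, σ k = qq (f a b σ g) ∧ vec (f a b σ g) - (x - D b (qq (f a b σ g)) x) ∈ V1 S)
      ↔ _
    have hrel : vec (f a b σ g) - (x - D b (qq (f a b σ g)) x)
        = fun p => T a b σ (qq g) p * (vec g - (x - D a (qq g) x)) p := by
      ext p
      simp only [vec_f, qq_f, Pi.sub_apply, D_apply]
      unfold T
      by_cases h0 : ex a (qq g) p = 0
      · rw [if_pos h0, h0, (h.ez (qq g) p).1 h0, e_zero]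
        ring
      · rw [if_neg h0]
        have h1 : (1 : ZMod 29) - e (ex a (qq g) p) ≠ 0 := by
          intro h2
          exact h0 (e_eq_one.1 (sub_eq_zero.1 h2).symm)
        field_simp
    rw [hrel]
    constructor
    · rintro ⟨k, hk, hkg, hv⟩
      rw [qq_f] at hkg
      have := σ.injective hkg
      subst this
      exact ⟨hk, (hT2 _ hk _).1 hv⟩
    · rintro ⟨hk, hv⟩
      exact ⟨qq g, hk, by simp, (hT2 _ hk _).2 hv⟩

/-- the element bijection -/
def F (a b : ZMod 7) (σ : Q ≃ Q) (h : Compat a b σ) (h' : Compat b a σ.symm) : P a ≃ P b where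
  toFun := f a b σ
  invFun := f b a σ.symm
  left_inv := f_f h
  right_inv := f_f h'

/-- the order isomorphism of subgroup lattices -/
noncomputable def Φ (a b : ZMod 7) (σ : Q ≃ Q) (h : Compat a b σ) (h' : Compat b a σ.symm) :
    Subgroup (P a) ≃o Subgroup (P b) where
  toFun S := (image_subgroup h S).choose
  invFun S := (image_subgroup h' S).choose
  left_inv S := by
    ext g
    have h1 := (image_subgroup h S).choose_spec
    have h2 := (image_subgroup h' (image_subgroup h S).choose).choose_spec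
    rw [← f_f h g, h2 (f a b σ g), h1 g, f_f h]
  right_inv S := by
    ext g
    have h1 := (image_subgroup h' S).choose_spec
    have h2 := (image_subgroup h (image_subgroup h' S).choose).choose_spec
    have h3 := f_f h' g
    simp only [Equiv.symm_symm] at h3
    rw [← h3, h2 (f b a σ.symm g), h1 g, h3]
  map_rel_iff' := by
    intro S S'
    have h1 := (image_subgroup h S).choose_spec
    have h2 := (image_subgroup h S').choose_spec
    constructor
    · intro hle g hg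
      exact (h2 g).1 (hle ((h1 g).2 hg))
    · intro hle g hg
      have h3 := f_f h' g
      simp only [Equiv.symm_symm] at h3
      rw [← h3] at hg ⊢
      exact (h2 _).2 (hle ((h1 _).1 hg))

lemma mem_Φ {a b : ZMod 7} {σ : Q ≃ Q} {h : Compat a b σ} {h' : Compat b a σ.symm}
    (S : Subgroup (P a)) (g : P a) : f a b σ g ∈ Φ a b σ h h' S ↔ g ∈ S :=
  (image_subgroup h S).choose_spec g

end Y470.Proj
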